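import Mathlib

/-!
# Sidorenko's inequality for complete multipartite graphs (in particular for all Turan graphs)

For every finite complete multipartite graph `G` with `k` vertices and `m` edges we prove
`R(3, G) ≤ k + m`.  Turan graphs `T(k, w)` are complete multipartite.

Proof idea.  Let the classes have sizes `s_1 ≥ ... ≥ s_w` and let `H` be triangle-free on at least
`k + m` vertices.  We look for disjoint vertex sets of sizes `s_i` with no edges of `H` between
different sets (edges inside a set are allowed).  If some vertex has degree at most `k - s_w`, put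
it in the smallest class, delete its closed neighbourhood and use induction.  Otherwise let `v` be
a vertex of maximum degree `d`.  If `d ≥ k`, the neighbourhood `N(v)` is an independent set
of size at least `k`.  Otherwise `k - s_w < d < k`; choose `A ⊆ N(v)` of size `k - s_1` uniformly
at random.  The expected number of vertices outside `N(v) ∪ {v}` with no neighbour in `A` is bounded
below by convexity of `t ↦ C(d - t, k - s_1)` (two tangent lines suffice), and a polynomial
inequality shows that it exceeds `k - d - 1`.  So `k - d` such vertices together with `N(v) \ A`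
form the largest class, and `A` is split into the other classes.
-/

namespace Pool.Agent.Results.MP_1de1cd_co.CompleteMultipartite

open Finset

lemma numericOne (B C D M : ℤ) (hB : 0 ≤ B) (hC : 0 ≤ C) (hD : 0 ≤ D)
    (hM : (B + 1 + (C + 1)) * (B + 1 + (C + D + 1)) + B ≤ M) :
    0 < (C+D+1)*(M*((B+1+(C+1)+(C+D+1))+(B+1+(C+1))-1)
          -(B+1+(C+1))*(B+1+(C+1)+(C+D+1))*((B+1+(C+1)+(C+D+1))-1))
          - B*(B+1+(C+1)+(C+D+1))*((B+1+(C+1)+(C+D+1))-1) ∨
    0 < (C+D+1)*((C+D+1)-1)*(M*((B+1+(C+1)+(C+D+1))+2*(B+1+(C+1))-2)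
          -(B+1+(C+1))*(B+1+(C+1)+(C+D+1))*((B+1+(C+1)+(C+D+1))-1))
          - B*(B+1+(C+1)+(C+D+1))*((B+1+(C+1)+(C+D+1))-1)*((B+1+(C+1)+(C+D+1))-2) := by
  obtain ⟨K, hK, rfl⟩ : ∃ K : ℤ, 0 ≤ K ∧
      M = (B + 1 + (C + 1)) * (B + 1 + (C + D + 1)) + B + K :=
    ⟨M - ((B + 1 + (C + 1)) * (B + 1 + (C + D + 1)) + B), by linarith, by ring⟩
  by_contra hcon
  push Not at hcon
  obtain ⟨h1, h2⟩ := hcon
  have key : 0 < (6*B^2+80) * ((C+D+1)*(((B + 1 + (C + 1)) * (B + 1 + (C + D + 1)) + B + K)*((B+1+(C+1)+(C+D+1))+(B+1+(C+1))-1)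
          -(B+1+(C+1))*(B+1+(C+1)+(C+D+1))*((B+1+(C+1)+(C+D+1))-1))
          - B*(B+1+(C+1)+(C+D+1))*((B+1+(C+1)+(C+D+1))-1)) + (9*C+6) * ((C+D+1)*((C+D+1)-1)*(((B + 1 + (C + 1)) * (B + 1 + (C + D + 1)) + B + K)*((B+1+(C+1)+(C+D+1))+2*(B+1+(C+1))-2)
          -(B+1+(C+1))*(B+1+(C+1)+(C+D+1))*((B+1+(C+1)+(C+D+1))-1))
          - B*(B+1+(C+1)+(C+D+1))*((B+1+(C+1)+(C+D+1))-1)*((B+1+(C+1)+(C+D+1))-2)) := by
    have e : (6*B^2+80) * ((C+D+1)*(((B + 1 + (C + 1)) * (B + 1 + (C + D + 1)) + B + K)*((B+1+(C+1)+(C+D+1))+(B+1+(C+1))-1)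
          -(B+1+(C+1))*(B+1+(C+1)+(C+D+1))*((B+1+(C+1)+(C+D+1))-1))
          - B*(B+1+(C+1)+(C+D+1))*((B+1+(C+1)+(C+D+1))-1)) + (9*C+6) * ((C+D+1)*((C+D+1)-1)*(((B + 1 + (C + 1)) * (B + 1 + (C + D + 1)) + B + K)*((B+1+(C+1)+(C+D+1))+2*(B+1+(C+1))-2)
          -(B+1+(C+1))*(B+1+(C+1)+(C+D+1))*((B+1+(C+1)+(C+D+1))-1))
          - B*(B+1+(C+1)+(C+D+1))*((B+1+(C+1)+(C+D+1))-1)*((B+1+(C+1)+(C+D+1))-2))
        = 27*B*C^2*D^3 + 81*B*C^3*D^2 + 81*B*C^4*D + 27*B*C^5 + 18*B^2*C*D^3 + 81*B^2*C^2*D^2 + 102*B^2*C^3*D + 39*B^2*C^4 + 24*B^3*C*D^2 + 42*B^3*C^2*D + 18*B^3*C^3 + 18*B^4*C*D + 12*B^4*C^2 + 6*B^4*D^2 + 6*B^5*C + 6*B^5*D + 9*C^3*D^3 + 18*C^4*D^2 + 9*C^5*D + 72*B*C*D^3 + 324*B*C^2*D^2 + 405*B*C^3*D + 144*B*C^4 + 168*B^2*C*D^2 + 255*B^2*C^2*D + 66*B^2*C^3 + 12*B^2*D^3 + 69*B^3*C*D + 30*B^3*D^2 + 21*B^4*C + 36*B^4*D + 42*C^2*D^3 + 120*C^3*D^2 + 105*C^4*D + 27*C^5 + 458*B*C*D^2 + 710*B*C^2*D + 228*B*C^3 + 36*B*D^3 + 405*B^2*C*D + 97*B^2*C^2 + 164*B^2*D^2 + 62*B^3*C + 140*B^3*D + 6*B^4 +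 60*C*D^3 + 270*C^2*D^2 + 265*C^3*D + 55*C^4 + 1074*B*C*D + 407*B*C^2 + 372*B*D^2 + 271*B^2*C + 522*B^2*D + 320*C*D^2 + 376*C^2*D + 24*D^3 + 740*B*C + 940*B*D + 118*B^2 + 652*C*D + 180*C^2 + 232*D^2 + 444*B + 528*C + 528*D + 320
          + K * ((6*B^2+80) * ((C+D+1) * (2*B+3*C+D+4)) + (9*C+6)*((C+D+1)*(C+D)*(3*B+4*C+D+5))) := by
      ring
    rw [e]
    positivity
  have p1 : 0 ≤ 6*B^2+80 := by positivity
  have p2 : 0 ≤ 9*C+6 := by positivity
  have q1 := mul_nonpos_of_nonneg_of_nonpos p1 h1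
  have q2 := mul_nonpos_of_nonneg_of_nonpos p2 h2
  linarith

lemma numericTwo (B R D M : ℤ) (hB : 0 ≤ B) (hR : 0 ≤ R) (hD : 0 ≤ D)
    (hM : (B + 1 + (R + D + 1)) * ((B + 1 + (R + D + 1)) + (B + 1 + (R + 1))) + 2 * B ≤ 2 * M) :
    0 < (R+1)*(M*((B+1+(R+D+1)+(R+1))+(B+1+(R+D+1))-1)
          -(B+1+(R+D+1))*(B+1+(R+D+1)+(R+1))*((B+1+(R+D+1)+(R+1))-1))
          - B*(B+1+(R+D+1)+(R+1))*((B+1+(R+D+1)+(R+1))-1) ∨
    0 < (R+1)*((R+1)-1)*(M*((B+1+(R+D+1)+(R+1))+2*(B+1+(R+D+1))-2)
          -(B+1+(R+D+1))*(B+1+(R+D+1)+(R+1))*((B+1+(R+D+1)+(R+1))-1))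
          - B*(B+1+(R+D+1)+(R+1))*((B+1+(R+D+1)+(R+1))-1)*((B+1+(R+D+1)+(R+1))-2) := by
  obtain ⟨K, hK, hMK⟩ : ∃ K : ℤ, 0 ≤ K ∧
      2 * M = (B + 1 + (R + D + 1)) * ((B + 1 + (R + D + 1)) + (B + 1 + (R + 1))) + 2 * B + K :=
    ⟨2 * M - ((B + 1 + (R + D + 1)) * ((B + 1 + (R + D + 1)) + (B + 1 + (R + 1))) + 2 * B),
      by linarith, by ring⟩
  by_contra hcon
  push Not at hcon
  obtain ⟨h1, h2⟩ := hcon
  have e : (6*B*D+6*B^2+3*R*D+6*D+80) * (2 * ((R+1)*(M*((B+1+(R+D+1)+(R+1))+(B+1+(R+D+1))-1)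
          -(B+1+(R+D+1))*(B+1+(R+D+1)+(R+1))*((B+1+(R+D+1)+(R+1))-1))
          - B*(B+1+(R+D+1)+(R+1))*((B+1+(R+D+1)+(R+1))-1))) + (9*R+6) * (2 * ((R+1)*((R+1)-1)*(M*((B+1+(R+D+1)+(R+1))+2*(B+1+(R+D+1))-2)
          -(B+1+(R+D+1))*(B+1+(R+D+1)+(R+1))*((B+1+(R+D+1)+(R+1))-1))
          - B*(B+1+(R+D+1)+(R+1))*((B+1+(R+D+1)+(R+1))-1)*((B+1+(R+D+1)+(R+1))-2)))
        = 105*B*D*R^4 + 45*B*D^2*R^3 + 54*B*R^5 + 75*B^2*D*R^3 + 24*B^2*D^2*R^2 + 12*B^2*D^3*R + 78*B^2*R^4 + 48*B^3*D*R^2 + 36*B^3*D^2*R + 36*B^3*R^3 + 36*B^4*D*R + 24*B^4*R^2 + 12*B^5*R + 12*D*R^5 + 18*D^2*R^4 + 6*D^3*R^3 + 282*B*D*R^3 + 15*B*D^2*R^2 + 288*B*R^4 + 3*B^2*D*R^2 + 42*B^2*D^2*R + 132*B^2*R^3 + 84*B^3*D*R + 42*B^4*R + 153*D*R^4 + 99*D^2*R^3 + 12*D^3*R^2 + 54*R^5 + 375*B*D*R^2 + 148*B*D^2*R + 456*B*R^3 + 254*B^2*D*R + 12*B^2*D^2 + 194*B^2*R^2 + 24*B^3*D + 124*B^3*R + 12*B^4 + 189*D*R^3 + 79*D^2*R^2 + 18*D^3*R + 110*R^4 + 832*B*D*R + 12*B*D^2 + 814*B*R^2 + 542*B^2*R + 228*D*R^2 + 206*D^2*R + 12*D^3 + 468*B*D + 1480*B*R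 + 236*B^2 + 868*D*R + 208*D^2 + 360*R^2 + 888*B + 688*D + 1056*R + 640
          + K * ((6*B*D+6*B^2+3*R*D+6*D+80) * ((R+1) * (2*B+3*R+2*D+4)) + (9*R+6)*((R+1)*R*(3*B+4*R+3*D+5))) := by
    linear_combination ((6*B*D+6*B^2+3*R*D+6*D+80) * ((R+1) * (2*B+3*R+2*D+4)) + (9*R+6)*((R+1)*R*(3*B+4*R+3*D+5))) * hMK
  have key : 0 < (6*B*D+6*B^2+3*R*D+6*D+80) * (2 * ((R+1)*(M*((B+1+(R+D+1)+(R+1))+(B+1+(R+D+1))-1)
          -(B+1+(R+D+1))*(B+1+(R+D+1)+(R+1))*((B+1+(R+D+1)+(R+1))-1))
          - B*(B+1+(R+D+1)+(R+1))*((B+1+(R+D+1)+(R+1))-1))) + (9*R+6) * (2 * ((R+1)*((R+1)-1)*(M*((B+1+(R+D+1)+(R+1))+2*(B+1+(R+D+1))-2)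
          -(B+1+(R+D+1))*(B+1+(R+D+1)+(R+1))*((B+1+(R+D+1)+(R+1))-1))
          - B*(B+1+(R+D+1)+(R+1))*((B+1+(R+D+1)+(R+1))-1)*((B+1+(R+D+1)+(R+1))-2))) := by
    rw [e]
    positivity
  have p1 : 0 ≤ 6*B*D+6*B^2+3*R*D+6*D+80 := by positivity
  have p2 : 0 ≤ 9*R+6 := by positivity
  have q1 := mul_nonpos_of_nonneg_of_nonpos p1 (mul_nonpos_of_nonneg_of_nonpos (by norm_num : (0:ℤ) ≤ 2) h1)
  have q2 := mul_nonpos_of_nonneg_of_nonpos p2 (mul_nonpos_of_nonneg_of_nonpos (by norm_num : (0:ℤ) ≤ 2) h2)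
  linarith

lemma numeric (b c r M m2 : ℤ) (hb : 1 ≤ b) (hc : 1 ≤ c) (hr : 1 ≤ r)
    (h1 : 2 * (b + c) * (b + r) ≤ m2) (h2 : (b + c) * ((b + c) + (b + r)) ≤ m2)
    (hM : m2 + 2 * b - 2 ≤ 2 * M) :
    0 < r*(M*((b+c+r)+(b+c)-1)-(b+c)*(b+c+r)*((b+c+r)-1)) - (b-1)*(b+c+r)*((b+c+r)-1) ∨
    0 < r*(r-1)*(M*((b+c+r)+2*(b+c)-2)-(b+c)*(b+c+r)*((b+c+r)-1))
        - (b-1)*(b+c+r)*((b+c+r)-1)*((b+c+r)-2) := by
  rcases le_total c r with h | h
  · have := numericOne (b-1) (c-1) (r-c) M (by linarith) (by linarith) (by linarith) (by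
      ring_nf at h1 hM ⊢; linarith)
    have e1 : b - 1 + 1 = b := by ring
    have e2 : c - 1 + 1 = c := by ring
    have e3 : c - 1 + (r - c) + 1 = r := by ring
    rw [e1, e2, e3] at this
    exact this
  · have := numericTwo (b-1) (r-1) (c-r) M (by linarith) (by linarith) (by linarith) (by
      ring_nf at h2 hM ⊢; linarith)
    have e1 : b - 1 + 1 = b := by ring
    have e2 : r - 1 + 1 = r := by ring
    have e3 : r - 1 + (c - r) + 1 = c := by ring
    rw [e1, e2, e3] at this
    exact this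

lemma choose_line_up (n a : ℕ) : ∀ x : ℕ, n + 1 ≤ x →
    ((n + 1).choose (a + 1) : ℤ) + ((x : ℤ) - (n + 1)) * (n.choose a) ≤ (x.choose (a + 1) : ℤ) := by
  intro x hx
  induction x, hx using Nat.le_induction with
  | base => push_cast; linarith
  | succ x hx ih =>
    have h1 : ((x+1).choose (a+1) : ℤ) = x.choose a + x.choose (a+1) := by
      exact_mod_cast Nat.choose_succ_succ x a
    have h2 : (n.choose a : ℤ) ≤ x.choose a := by
      exact_mod_cast Nat.choose_le_choose a (by omega)
    rw [h1]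
    push_cast
    linarith

lemma choose_line_down (n a : ℕ) : ∀ j x : ℕ, x + j = n + 1 →
    ((n + 1).choose (a + 1) : ℤ) + ((x : ℤ) - (n + 1)) * (n.choose a) ≤ (x.choose (a + 1) : ℤ) := by
  intro j
  induction j with
  | zero => intro x hx; simp only [Nat.add_zero] at hx; subst hx; push_cast; linarith
  | succ j ih =>
    intro x hx
    have h := ih (x + 1) (by omega)
    have h1 : ((x+1).choose (a+1) : ℤ) = x.choose a + x.choose (a+1) := by
      exact_mod_cast Nat.choose_succ_succ x a
    have h2 : (x.choose a : ℤ) ≤ n.choose a := by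
      exact_mod_cast Nat.choose_le_choose a (by omega)
    rw [h1] at h
    push_cast at h
    linarith

lemma choose_line (n a x : ℕ) :
    ((n + 1).choose (a + 1) : ℤ) + ((x : ℤ) - (n + 1)) * (n.choose a) ≤ (x.choose (a + 1) : ℤ) := by
  rcases le_total (n+1) x with h | h
  · exact choose_line_up n a x h
  · exact choose_line_down n a (n + 1 - x) x (by omega)

lemma exists_subset_many {V : Type*} [DecidableEq V] (Nv W : Finset V) (S : V → Finset V)
    (hS : ∀ w ∈ W, S w ⊆ Nv) (a b : ℕ)
    (hsum : b * (Nv.card.choose a) < ∑ w ∈ W, ((S w).card.choose a)) :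
    ∃ A ⊆ Nv, A.card = a ∧ b + 1 ≤ (W.filter (fun w => A ⊆ S w)).card := by
  by_contra hcon
  push Not at hcon
  have h1 : ∑ w ∈ W, ((S w).card.choose a)
      = ∑ A ∈ Nv.powersetCard a, (W.filter (fun w => A ⊆ S w)).card := by
    have h2 := Finset.sum_card_bipartiteAbove_eq_sum_card_bipartiteBelow
      (s := W) (t := Nv.powersetCard a) (fun w A => A ⊆ S w)
    simp only [Finset.bipartiteAbove, Finset.bipartiteBelow] at h2
    rw [← h2]
    apply Finset.sum_congr rfl
    intro w hw
    rw [← Finset.card_powersetCard]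
    congr 1
    ext A
    simp only [Finset.mem_powersetCard, Finset.mem_filter]
    constructor
    · rintro ⟨h3, h4⟩
      exact ⟨⟨h3.trans (hS w hw), h4⟩, h3⟩
    · rintro ⟨⟨_, h4⟩, h3⟩
      exact ⟨h3, h4⟩
  have h3 : ∑ A ∈ Nv.powersetCard a, (W.filter (fun w => A ⊆ S w)).card
      ≤ ∑ A ∈ Nv.powersetCard a, b := by
    apply Finset.sum_le_sum
    intro A hA
    rw [Finset.mem_powersetCard] at hA
    have := hcon A hA.1 hA.2
    omega
  rw [Finset.sum_const, Finset.card_powersetCard, smul_eq_mul] at h3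
  rw [h1] at hsum
  have : Nv.card.choose a * b = b * Nv.card.choose a := Nat.mul_comm _ _
  omega

lemma exists_A {V : Type*} [DecidableEq V] (Nv W : Finset V) (S : V → Finset V)
    (hS : ∀ w ∈ W, S w ⊆ Nv) (b c r m2 : ℕ) (hb : 1 ≤ b) (hc : 1 ≤ c) (hr : 1 ≤ r)
    (hd : Nv.card = b + c + r)
    (hsum : (W.card : ℤ) * (b + c + r) - (b + c + r) * (b + c + r - 1)
      ≤ ∑ w ∈ W, ((S w).card : ℤ))
    (h1 : 2 * (b + c) * (b + r) ≤ m2) (h2 : (b + c) * ((b + c) + (b + r)) ≤ m2)
    (hM : m2 + 2 * b ≤ 2 * W.card + 2) :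
    ∃ A ⊆ Nv, A.card = b + c ∧ b ≤ (W.filter (fun w => A ⊆ S w)).card := by
  obtain ⟨b', rfl⟩ : ∃ b', b = b' + 1 := ⟨b - 1, by omega⟩
  apply exists_subset_many Nv W S hS
  obtain ⟨n, hn⟩ : ∃ n, b' + 1 + c + r = n + 3 := ⟨b' + 1 + c + r - 3, by omega⟩
  have hnZ : (n : ℤ) = b' + c + r - 2 := by have := congrArg (Nat.cast : ℕ → ℤ) hn; push_cast at this; linarith
  rw [hd, hn]
  obtain ⟨a', ha'⟩ : ∃ a', b' + 1 + c = a' + 1 := ⟨b' + c, by omega⟩
  have haZ : (a' : ℤ) = b' + c := by have := congrArg (Nat.cast : ℕ → ℤ) ha'; push_cast at this; linarith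
  rw [ha']
  have hnum := numeric (b' + 1) c r W.card m2 (by linarith [Int.natCast_nonneg b'])
    (by exact_mod_cast hc) (by exact_mod_cast hr) (by exact_mod_cast h1) (by exact_mod_cast h2)
    (by have : ((m2 + 2 * (b'+1) : ℕ) : ℤ) ≤ ((2 * W.card + 2 : ℕ) : ℤ) := by exact_mod_cast hM
        push_cast at this; linarith)
  -- binomial identities
  set X : ℤ := ((n + 3).choose (a' + 1) : ℤ) with hX
  have hXpos : 0 < X := by
    rw [hX]; exact_mod_cast Nat.choose_pos (by omega)
  have i1 : ((n:ℤ) + 3) * ((n + 2).choose a' : ℤ) = X * (a' + 1) := by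
    have := Nat.add_one_mul_choose_eq (n + 2) a'
    rw [hX]; exact_mod_cast this
  have i2 : ((n + 2).choose a' : ℤ) + ((n + 2).choose (a' + 1) : ℤ) = X := by
    rw [hX]; exact_mod_cast (Nat.choose_succ_succ (n + 2) a').symm
  have i3 : ((n + 1).choose a' : ℤ) * (n + 2) = ((n + 2).choose a' : ℤ) * (n + 2 - a') := by
    have := Nat.choose_mul_succ_eq (n + 1) a'
    have h4 : ((n + 1 + 1 - a' : ℕ) : ℤ) = (n:ℤ) + 2 - a' := by
      rw [Nat.cast_sub (by omega)]; push_cast; ring
    rw [← h4]
    exact_mod_cast this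
  have i4 : ((n + 1).choose (a' + 1) : ℤ) * (n + 2) = ((n + 2).choose (a' + 1) : ℤ) * (n + 1 - a') := by
    have := Nat.choose_mul_succ_eq (n + 1) (a' + 1)
    have h4 : ((n + 1 + 1 - (a' + 1) : ℕ) : ℤ) = (n:ℤ) + 1 - a' := by
      rw [Nat.cast_sub (by omega)]; push_cast; ring
    rw [← h4]
    exact_mod_cast this
  have i5 : (n.choose a' : ℤ) * (n + 1) = ((n + 1).choose a' : ℤ) * (n + 1 - a') := by
    have := Nat.choose_mul_succ_eq n a'
    have h4 : ((n + 1 - a' : ℕ) : ℤ) = (n:ℤ) + 1 - a' := by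
      rw [Nat.cast_sub (by omega)]; push_cast; ring
    rw [← h4]
    exact_mod_cast this
  have hrZ : (r : ℤ) = n + 2 - a' := by rw [hnZ, haZ]; ring
  have hcZ : (c : ℤ) = a' - b' := by rw [haZ]; ring
  have hbb : (0:ℤ) ≤ b' := Int.natCast_nonneg b'
  have ha0 : (0:ℤ) ≤ a' := Int.natCast_nonneg a'
  have hn0 : (0:ℤ) ≤ n := Int.natCast_nonneg n
  have hM0 : (0:ℤ) ≤ W.card := Int.natCast_nonneg _
  have hr1 : (1:ℤ) ≤ r := by exact_mod_cast hr
  have hgoal : (b' : ℤ) * X < ∑ w ∈ W, (((S w).card.choose (a' + 1) : ℕ) : ℤ) := by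
    have hdd : ((b' + 1 : ℕ) : ℤ) + c + r = n + 3 := by exact_mod_cast hn
    rw [hdd] at hsum
    rcases hnum with hF | hF
    · -- line through one and two
      have hline : ∑ w ∈ W, (((n + 2).choose (a' + 1) : ℤ)
          + (((S w).card : ℤ) - ((n + 1 : ℕ) + 1)) * ((n + 1).choose a'))
          ≤ ∑ w ∈ W, (((S w).card.choose (a' + 1) : ℕ) : ℤ) :=
        Finset.sum_le_sum (fun w _ => choose_line (n + 1) a' (S w).card)
      rw [Finset.sum_add_distrib, ← Finset.sum_mul, Finset.sum_sub_distrib, Finset.sum_const,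
        Finset.sum_const, nsmul_eq_mul, nsmul_eq_mul] at hline
      set E := ∑ w ∈ W, (((S w).card.choose (a' + 1) : ℕ) : ℤ) with hE
      set T := ∑ w ∈ W, ((S w).card : ℤ) with hT
      have hC : (0:ℤ) ≤ ((n + 1).choose a' : ℤ) := Int.natCast_nonneg _
      have h5 : (W.card : ℤ) * ((n + 2).choose (a' + 1) : ℤ)
          + ((W.card : ℤ) - (n + 3) * (n + 2)) * ((n + 1).choose a') ≤ E := by
        refine le_trans ?_ hline
        have : ((W.card : ℤ) - (n + 3) * (n + 2)) ≤ T - (W.card : ℤ) * (((n + 1 : ℕ) : ℤ) + 1) := by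
          push_cast
          nlinarith
        nlinarith [mul_le_mul_of_nonneg_right this hC]
      -- multiply
      have h6 : ((n:ℤ) + 3) * (n + 2) * ((W.card : ℤ) * ((n + 2).choose (a' + 1) : ℤ)
          + ((W.card : ℤ) - (n + 3) * (n + 2)) * ((n + 1).choose a'))
          = X * ((r:ℤ) * (W.card * (n + 2) + (W.card - (n + 3) * (n + 2)) * (a' + 1))) := by
        have e1 : ((n:ℤ) + 3) * ((n + 2).choose (a' + 1) : ℤ) = X * r := by
          rw [hrZ]
          linear_combination (n + 3 : ℤ) * i2 - i1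
        have e2 : ((n:ℤ) + 3) * (n + 2) * ((n + 1).choose a' : ℤ) = X * (a' + 1) * r := by
          rw [hrZ]
          linear_combination (n + 3 : ℤ) * i3 + (n + 2 - a' : ℤ) * i1
        linear_combination (n + 2 : ℤ) * W.card * e1 + ((W.card : ℤ) - (n + 3) * (n + 2)) * e2
      have h7 : (0:ℤ) < ((n:ℤ) + 3) * (n + 2) := by positivity
      have h8 : (b' : ℤ) * ((n + 3) * (n + 2)) < (r:ℤ) * (W.card * (n + 2) + (W.card - (n + 3) * (n + 2)) * (a' + 1)) := by
        rw [hcZ] at hF
        have hrr : (b' : ℤ) + 1 + (a' - b') + r = n + 3 := by rw [hrZ]; ring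
        rw [hrr] at hF
        have hF' : 0 < (r:ℤ) * (W.card * (n + 2) + (W.card - (n + 3) * (n + 2)) * (a' + 1)) - b' * ((n + 3) * (n + 2)) := by
          convert hF using 1
          ring
        linarith
      have h9 : (b' : ℤ) * X * (((n:ℤ) + 3) * (n + 2)) < E * (((n:ℤ) + 3) * (n + 2)) := by
        calc (b' : ℤ) * X * (((n:ℤ) + 3) * (n + 2)) = X * (b' * ((n + 3) * (n + 2))) := by ring
          _ < X * ((r:ℤ) * (W.card * (n + 2) + (W.card - (n + 3) * (n + 2)) * (a' + 1))) :=
              mul_lt_mul_of_pos_left h8 hXpos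
          _ = _ := h6.symm
          _ ≤ ((n:ℤ) + 3) * (n + 2) * E := mul_le_mul_of_nonneg_left h5 h7.le
          _ = _ := by ring
      exact lt_of_mul_lt_mul_right h9 h7.le
    · -- line through two and three
      have hline : ∑ w ∈ W, (((n + 1).choose (a' + 1) : ℤ)
          + (((S w).card : ℤ) - ((n : ℕ) + 1)) * (n.choose a'))
          ≤ ∑ w ∈ W, (((S w).card.choose (a' + 1) : ℕ) : ℤ) :=
        Finset.sum_le_sum (fun w _ => choose_line n a' (S w).card)
      rw [Finset.sum_add_distrib, ← Finset.sum_mul, Finset.sum_sub_distrib, Finset.sum_const,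
        Finset.sum_const, nsmul_eq_mul, nsmul_eq_mul] at hline
      set E := ∑ w ∈ W, (((S w).card.choose (a' + 1) : ℕ) : ℤ) with hE
      set T := ∑ w ∈ W, ((S w).card : ℤ) with hT
      have hC : (0:ℤ) ≤ (n.choose a' : ℤ) := Int.natCast_nonneg _
      have h5 : (W.card : ℤ) * ((n + 1).choose (a' + 1) : ℤ)
          + (2 * (W.card : ℤ) - (n + 3) * (n + 2)) * (n.choose a') ≤ E := by
        refine le_trans ?_ hline
        have : (2 * (W.card : ℤ) - (n + 3) * (n + 2)) ≤ T - (W.card : ℤ) * (((n : ℕ) : ℤ) + 1) := by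
          nlinarith
        nlinarith [mul_le_mul_of_nonneg_right this hC]
      have h6 : ((n:ℤ) + 3) * (n + 2) * (n + 1) * ((W.card : ℤ) * ((n + 1).choose (a' + 1) : ℤ)
          + (2 * (W.card : ℤ) - (n + 3) * (n + 2)) * (n.choose a'))
          = X * ((r:ℤ) * (r - 1) * (W.card * (n + 1) + (2 * W.card - (n + 3) * (n + 2)) * (a' + 1))) := by
        have e1 : ((n:ℤ) + 3) * ((n + 2).choose (a' + 1) : ℤ) = X * r := by
          rw [hrZ]
          linear_combination (n + 3 : ℤ) * i2 - i1
        have e2 : ((n:ℤ) + 3) * (n + 2) * ((n + 1).choose a' : ℤ) = X * (a' + 1) * r := by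
          rw [hrZ]
          linear_combination (n + 3 : ℤ) * i3 + (n + 2 - a' : ℤ) * i1
        have e3 : ((n:ℤ) + 3) * (n + 2) * ((n + 1).choose (a' + 1) : ℤ) = X * r * (r - 1) := by
          have : (r:ℤ) - 1 = n + 1 - a' := by rw [hrZ]; ring
          rw [this]
          linear_combination (n + 3 : ℤ) * i4 + (n + 1 - a' : ℤ) * e1
        have e4 : ((n:ℤ) + 3) * (n + 2) * (n + 1) * (n.choose a' : ℤ) = X * (a' + 1) * r * (r - 1) := by
          have : (r:ℤ) - 1 = n + 1 - a' := by rw [hrZ]; ring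
          rw [this]
          linear_combination (n + 3 : ℤ) * (n + 2) * i5 + (n + 1 - a' : ℤ) * e2
        linear_combination (n + 1 : ℤ) * W.card * e3 + (2 * (W.card : ℤ) - (n + 3) * (n + 2)) * e4
      have h7 : (0:ℤ) < ((n:ℤ) + 3) * (n + 2) * (n + 1) := by positivity
      have h8 : (b' : ℤ) * ((n + 3) * (n + 2) * (n + 1)) < (r:ℤ) * (r - 1) * (W.card * (n + 1) + (2 * W.card - (n + 3) * (n + 2)) * (a' + 1)) := by
        rw [hcZ] at hF
        have hrr : (b' : ℤ) + 1 + (a' - b') + r = n + 3 := by rw [hrZ]; ring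
        rw [hrr] at hF
        have hF' : 0 < (r:ℤ) * (r - 1) * (W.card * (n + 1) + (2 * W.card - (n + 3) * (n + 2)) * (a' + 1)) - b' * ((n + 3) * (n + 2) * (n + 1)) := by
          convert hF using 1
          ring
        linarith
      have h9 : (b' : ℤ) * X * (((n:ℤ) + 3) * (n + 2) * (n + 1)) < E * (((n:ℤ) + 3) * (n + 2) * (n + 1)) := by
        calc (b' : ℤ) * X * (((n:ℤ) + 3) * (n + 2) * (n + 1)) = X * (b' * ((n + 3) * (n + 2) * (n + 1))) := by ring
          _ < X * ((r:ℤ) * (r - 1) * (W.card * (n + 1) + (2 * W.card - (n + 3) * (n + 2)) * (a' + 1))) :=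
              mul_lt_mul_of_pos_left h8 hXpos
          _ = _ := h6.symm
          _ ≤ ((n:ℤ) + 3) * (n + 2) * (n + 1) * E := mul_le_mul_of_nonneg_left h5 h7.le
          _ = _ := by ring
      exact lt_of_mul_lt_mul_right h9 h7.le
  rw [hX] at hgoal
  exact_mod_cast hgoal

/-- A finite set can be split into disjoint pieces of prescribed sizes. -/
lemma split {V ι : Type*} [DecidableEq V] [DecidableEq ι] (s : ι → ℕ) (J : Finset ι) :
    ∀ A : Finset V, ∑ i ∈ J, s i ≤ A.card →
      ∃ g : ι → Finset V, (∀ i, g i ⊆ A) ∧ (∀ i ∈ J, (g i).card = s i) ∧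
        ∀ i ∈ J, ∀ j ∈ J, i ≠ j → Disjoint (g i) (g j) := by
  induction J using Finset.induction_on with
  | empty => intro A _; exact ⟨fun _ => ∅, by simp, by simp, by simp⟩
  | insert i J hi ih =>
    intro A hA
    rw [Finset.sum_insert hi] at hA
    obtain ⟨T, hTA, hT⟩ := Finset.exists_subset_card_eq (show s i ≤ A.card by omega)
    have hcard : (A \ T).card = A.card - s i := by rw [Finset.card_sdiff_of_subset hTA, hT]
    obtain ⟨g, hg1, hg2, hg3⟩ := ih (A \ T) (by omega)
    refine ⟨Function.update g i T, ?_, ?_, ?_⟩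
    · intro j
      by_cases h : j = i
      · subst h; simpa using hTA
      · rw [Function.update_of_ne h]; exact (hg1 j).trans Finset.sdiff_subset
    · intro j hj
      by_cases h : j = i
      · subst h; simpa using hT
      · rw [Function.update_of_ne h]; exact hg2 j ((Finset.mem_insert.mp hj).resolve_left h)
    · intro j hj l hl hjl
      by_cases h : j = i
      · subst h
        rw [Function.update_self, Function.update_of_ne hjl.symm]
        exact Finset.disjoint_left.mpr fun x hx hx' => (Finset.mem_sdiff.mp (hg1 l hx')).2 hx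
      · rw [Function.update_of_ne h]
        by_cases h' : l = i
        · subst h'
          rw [Function.update_self]
          exact Finset.disjoint_left.mpr fun x hx hx' => (Finset.mem_sdiff.mp (hg1 j hx)).2 hx'
        · rw [Function.update_of_ne h']
          exact hg3 j ((Finset.mem_insert.mp hj).resolve_left h) l
            ((Finset.mem_insert.mp hl).resolve_left h') hjl

lemma sum_sq_update {ι : Type*} [Fintype ι] [DecidableEq ι] (s : ι → ℕ) (p : ι) (hp : 0 < s p) :
    ∑ i, (Function.update s p (s p - 1) i) + 1 = ∑ i, s i ∧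
    ∑ i, (Function.update s p (s p - 1) i)^2 + 2 * s p = ∑ i, (s i)^2 + 1 := by
  have h1 := Finset.sum_update_of_mem (Finset.mem_univ p) s (s p - 1)
  have h2 := Finset.add_sum_erase Finset.univ s (Finset.mem_univ p)
  have h3 : ∑ i, (Function.update s p (s p - 1) i)^2
      = (s p - 1)^2 + ∑ i ∈ Finset.univ \ {p}, (s i)^2 := by
    rw [← Finset.add_sum_erase Finset.univ _ (Finset.mem_univ p), Function.update_self,
      Finset.erase_eq]
    congr 1
    apply Finset.sum_congr rfl
    intro i hi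
    rw [Function.update_of_ne]
    simpa using hi
  have h4 := Finset.add_sum_erase Finset.univ (fun i => (s i)^2) (Finset.mem_univ p)
  rw [Finset.erase_eq] at h2 h4
  obtain ⟨t, ht⟩ : ∃ t, s p = t + 1 := ⟨s p - 1, by omega⟩
  simp only [ht, Nat.add_sub_cancel] at h1 h2 h3 h4 ⊢
  refine ⟨by omega, ?_⟩
  rw [h3, ← h4]
  ring

theorem core {V ι : Type*} [DecidableEq V] [Fintype ι] [DecidableEq ι]
    (H : SimpleGraph V) [DecidableRel H.Adj] (hH : H.CliqueFree 3) :
    ∀ (k : ℕ) (s : ι → ℕ) (U : Finset V), ∑ i, s i = k →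
      k ^ 2 + 2 * k ≤ 2 * U.card + ∑ i, (s i) ^ 2 →
      ∃ f : ι → Finset V, (∀ i, f i ⊆ U) ∧ (∀ i, (f i).card = s i) ∧
        ∀ i j, i ≠ j → ∀ x ∈ f i, ∀ y ∈ f j, x ≠ y ∧ ¬ H.Adj x y := by
  have tri : ∀ x y z, H.Adj x y → H.Adj x z → H.Adj y z → False := by
    intro x y z hxy hxz hyz
    exact hH {x, y, z} (SimpleGraph.is3Clique_triple_iff.mpr ⟨hxy, hxz, hyz⟩)
  intro k
  induction k with
  | zero =>
    intro s U hs _
    have h0 : ∀ i, s i = 0 := fun i => (Finset.sum_eq_zero_iff.mp hs) i (Finset.mem_univ i)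
    exact ⟨fun _ => ∅, by simp, by simp [h0], by simp⟩
  | succ k ih =>
    intro s U hs hU
    have hne : (Finset.univ : Finset ι).Nonempty := by
      by_contra h
      rw [Finset.not_nonempty_iff_eq_empty] at h
      rw [h] at hs; simp at hs
    obtain ⟨q, -, hq⟩ := Finset.exists_max_image Finset.univ s hne
    have hsumq : s q + ∑ i ∈ Finset.univ.erase q, s i = k + 1 := by
      rw [Finset.add_sum_erase Finset.univ s (Finset.mem_univ q), hs]
    by_cases hall : ∀ i, i ≠ q → s i = 0
    · -- only one class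
      have h0 : ∑ i ∈ Finset.univ.erase q, s i = 0 :=
        Finset.sum_eq_zero fun i hi => hall i (Finset.ne_of_mem_erase hi)
      have hsq : s q = k + 1 := by omega
      have hsq2 : ∑ i, (s i) ^ 2 = (k + 1) ^ 2 := by
        rw [← Finset.add_sum_erase Finset.univ (fun i => (s i)^2) (Finset.mem_univ q), hsq,
          Finset.sum_eq_zero fun i hi => by rw [hall i (Finset.ne_of_mem_erase hi)]; rfl]
        rfl
      obtain ⟨T, hTU, hT⟩ := Finset.exists_subset_card_eq (show k + 1 ≤ U.card by omega)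
      refine ⟨fun i => if i = q then T else ∅, ?_, ?_, ?_⟩
      · intro i; dsimp only; split_ifs; exacts [hTU, Finset.empty_subset _]
      · intro i; dsimp only; split_ifs with h
        · rw [h, hsq, hT]
        · rw [hall i h]; rfl
      · intro i j hij x hx y hy
        dsimp only at hx hy
        split_ifs at hx hy with h h' h'
        · exact absurd (h.trans h'.symm) hij
        all_goals simp at hx hy
    · push Not at hall
      obtain ⟨p0, hp0q, hp0⟩ := hall
      obtain ⟨p, hpmem, hpmin⟩ := Finset.exists_min_image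
        (Finset.univ.filter (fun i => i ≠ q ∧ 0 < s i)) s
        ⟨p0, by simp [hp0q, Nat.pos_of_ne_zero hp0]⟩
      simp only [Finset.mem_filter, Finset.mem_univ, true_and] at hpmem hpmin
      obtain ⟨hpq, hppos⟩ := hpmem
      have hspq : s p ≤ s q := hq p (Finset.mem_univ p)
      by_cases hA : ∃ v ∈ U, (U.filter (H.Adj v)).card + s p ≤ k + 1
      · -- Case A
        obtain ⟨v, hvU, hdeg⟩ := hA
        obtain ⟨hs1, hs2⟩ := sum_sq_update s p hppos
        set s' := Function.update s p (s p - 1) with hs'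
        have hU' : ((U.erase v) \ U.filter (H.Adj v)).card + (U.filter (H.Adj v)).card + 1
            = U.card := by
          have h1 : U.filter (H.Adj v) ⊆ U.erase v := by
            intro x hx
            rw [Finset.mem_filter] at hx
            exact Finset.mem_erase.mpr ⟨fun h => H.loopless.irrefl v (h ▸ hx.2), hx.1⟩
          have h2 := Finset.card_sdiff_add_card_eq_card h1
          have h3 := Finset.card_erase_add_one hvU
          omega
        obtain ⟨f, hf1, hf2, hf3⟩ := ih s' ((U.erase v) \ U.filter (H.Adj v)) (by omega) (by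
          have e : (k + 1) ^ 2 + 2 * (k + 1) = k ^ 2 + 4 * k + 3 := by ring
          rw [e] at hU
          omega)
        refine ⟨Function.update f p (insert v (f p)), ?_, ?_, ?_⟩
        · intro i
          by_cases h : i = p
          · subst h
            rw [Function.update_self]
            apply Finset.insert_subset hvU
            exact (hf1 i).trans (Finset.sdiff_subset.trans (Finset.erase_subset _ _))
          · rw [Function.update_of_ne h]
            exact (hf1 i).trans (Finset.sdiff_subset.trans (Finset.erase_subset _ _))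
        · intro i
          by_cases h : i = p
          · subst h
            rw [Function.update_self, Finset.card_insert_of_notMem, hf2, hs', Function.update_self]
            · omega
            · intro hv
              have := hf1 i hv
              simp at this
          · rw [Function.update_of_ne h, hf2, hs', Function.update_of_ne h]
        · -- pairs
          have hv : ∀ i, ∀ x ∈ f i, v ≠ x ∧ ¬ H.Adj v x := by
            intro i x hx
            have := hf1 i hx
            simp only [Finset.mem_sdiff, Finset.mem_erase, Finset.mem_filter, not_and] at this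
            exact ⟨fun h => this.1.1 h.symm, this.2 this.1.2⟩
          intro i j hij x hx y hy
          by_cases h : i = p
          · subst h
            rw [Function.update_self] at hx
            rw [Function.update_of_ne hij.symm] at hy
            rcases Finset.mem_insert.mp hx with rfl | hx
            · exact hv j y hy
            · exact hf3 i j hij x hx y hy
          · rw [Function.update_of_ne h] at hx
            by_cases h' : j = p
            · subst h'
              rw [Function.update_self] at hy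
              rcases Finset.mem_insert.mp hy with rfl | hy
              · exact ⟨(hv i x hx).1.symm, fun hadj => (hv i x hx).2 hadj.symm⟩
              · exact hf3 i j hij x hx y hy
            · rw [Function.update_of_ne h'] at hy
              exact hf3 i j hij x hx y hy
      · -- Case B
        push Not at hA
        have hUne : U.Nonempty := by
          by_contra h
          rw [Finset.not_nonempty_iff_eq_empty] at h
          subst h
          have : ∑ i, (s i) ^ 2 ≤ (∑ i, s i) ^ 2 := Finset.sum_sq_le_sq_sum_of_nonneg (fun _ _ => Nat.zero_le _)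
          rw [hs] at this
          simp at hU
          omega
        obtain ⟨v, hvU, hvmax⟩ := Finset.exists_max_image U (fun v => (U.filter (H.Adj v)).card) hUne
        set Nv := U.filter (H.Adj v) with hNv
        have hNvind : ∀ x ∈ Nv, ∀ y ∈ Nv, ¬ H.Adj x y := by
          intro x hx y hy hxy
          rw [hNv, Finset.mem_filter] at hx hy
          exact tri v x y hx.2 hy.2 hxy
        by_cases hbig : k + 1 ≤ Nv.card
        · obtain ⟨g, hg1, hg2, hg3⟩ := split s Finset.univ Nv (by rw [hs]; exact hbig)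
          refine ⟨g, fun i => (hg1 i).trans (Finset.filter_subset _ _),
            fun i => hg2 i (Finset.mem_univ i), ?_⟩
          intro i j hij x hx y hy
          refine ⟨fun h => ?_, hNvind x (hg1 i hx) y (hg1 j hy)⟩
          subst h
          exact Finset.disjoint_left.mp (hg3 i (Finset.mem_univ i) j (Finset.mem_univ j) hij) hx hy
        · push Not at hbig
          have hdv := hA v hvU
          rw [← hNv] at hdv
          -- parameters
          obtain ⟨b, hb⟩ : ∃ b, b + Nv.card = k + 1 := ⟨k + 1 - Nv.card, by omega⟩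
          have hb1 : 1 ≤ b := by omega
          have hbp : b + 1 ≤ s p := by omega
          obtain ⟨r, hr⟩ : ∃ r, b + r = s q := ⟨s q - b, by omega⟩
          have hr1 : 1 ≤ r := by omega
          have haq : s p ≤ ∑ i ∈ Finset.univ.erase q, s i :=
            Finset.single_le_sum (f := s) (fun _ _ => Nat.zero_le _)
              (Finset.mem_erase.mpr ⟨hpq, Finset.mem_univ p⟩)
          obtain ⟨c, hc⟩ : ∃ c, b + c = ∑ i ∈ Finset.univ.erase q, s i :=
            ⟨(∑ i ∈ Finset.univ.erase q, s i) - b, by omega⟩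
          have hc1 : 1 ≤ c := by omega
          have hd : Nv.card = b + c + r := by omega
          set W := (U.erase v) \ Nv with hW
          have hWcard : W.card + Nv.card + 1 = U.card := by
            have h1 : Nv ⊆ U.erase v := by
              intro x hx
              rw [hNv, Finset.mem_filter] at hx
              exact Finset.mem_erase.mpr ⟨fun h => H.loopless.irrefl v (h ▸ hx.2), hx.1⟩
            have h2 := Finset.card_sdiff_add_card_eq_card h1
            rw [← hW] at h2
            have h3 := Finset.card_erase_add_one hvU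
            omega
          -- sum of squares bounds
          have hsq : ∑ i, (s i) ^ 2 = (b + r) ^ 2 + ∑ i ∈ Finset.univ.erase q, (s i) ^ 2 := by
            rw [hr, Finset.add_sum_erase Finset.univ (fun i => (s i) ^ 2) (Finset.mem_univ q)]
          have hsq1 : ∑ i ∈ Finset.univ.erase q, (s i) ^ 2 ≤ (b + c) ^ 2 := by
            rw [hc]
            exact Finset.sum_sq_le_sq_sum_of_nonneg (fun _ _ => Nat.zero_le _)
          have hsq2 : ∑ i ∈ Finset.univ.erase q, (s i) ^ 2 ≤ (b + r) * (b + c) := by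
            rw [hc, Finset.mul_sum]
            apply Finset.sum_le_sum
            intro i _
            rw [sq, hr]
            exact Nat.mul_le_mul_right _ (hq i (Finset.mem_univ i))
          have hk1 : k + 1 = (b + r) + (b + c) := by omega
          obtain ⟨m2, hm2⟩ : ∃ m2, m2 + ∑ i, (s i) ^ 2 = (k + 1) ^ 2 := by
            have : ∑ i, (s i) ^ 2 ≤ (∑ i, s i) ^ 2 := Finset.sum_sq_le_sq_sum_of_nonneg (fun _ _ => Nat.zero_le _)
            rw [hs] at this
            exact ⟨(k+1)^2 - ∑ i, (s i) ^ 2, by omega⟩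
          have hm2a : 2 * (b + c) * (b + r) ≤ m2 := by
            have : (k+1)^2 = (b + r)^2 + 2 * (b + c) * (b + r) + (b + c)^2 := by rw [hk1]; ring
            omega
          have hm2b : (b + c) * ((b + c) + (b + r)) ≤ m2 := by
            have : (k+1)^2 = (b + r)^2 + (b + r) * (b + c) + (b + c) * ((b + c) + (b + r)) := by
              rw [hk1]; ring
            omega
          have hMW : m2 + 2 * b ≤ 2 * W.card + 2 := by omega
          -- counting edges between Nv and W
          have hcount : ∑ w ∈ W, (Nv.filter (fun u => H.Adj w u)).card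
              ≤ Nv.card * (Nv.card - 1) := by
            have h1 := Finset.sum_card_bipartiteAbove_eq_sum_card_bipartiteBelow
              (s := W) (t := Nv) (fun w u => H.Adj w u)
            simp only [Finset.bipartiteAbove, Finset.bipartiteBelow] at h1
            rw [h1]
            calc ∑ u ∈ Nv, (W.filter (fun w => H.Adj w u)).card
                ≤ ∑ u ∈ Nv, (Nv.card - 1) := by
                  apply Finset.sum_le_sum
                  intro u hu
                  have huU : u ∈ U := (Finset.mem_filter.mp hu).1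
                  have huv : H.Adj v u := (Finset.mem_filter.mp hu).2
                  have h2 : (W.filter (fun w => H.Adj w u)) ⊆ (U.filter (H.Adj u)).erase v := by
                    intro w hw
                    rw [Finset.mem_filter, hW, Finset.mem_sdiff, Finset.mem_erase] at hw
                    rw [Finset.mem_erase, Finset.mem_filter]
                    exact ⟨hw.1.1.1, hw.1.1.2, hw.2.symm⟩
                  have h3 := Finset.card_le_card h2
                  rw [Finset.card_erase_of_mem (Finset.mem_filter.mpr ⟨hvU, huv.symm⟩)] at h3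
                  have h4 := hvmax u huU
                  omega
              _ = Nv.card * (Nv.card - 1) := by rw [Finset.sum_const, smul_eq_mul]
          have hsum : (W.card : ℤ) * (b + c + r) - (b + c + r) * (b + c + r - 1)
              ≤ ∑ w ∈ W, (((Nv.filter (fun u => ¬ H.Adj w u)).card : ℕ) : ℤ) := by
            have h1 : ∑ w ∈ W, (((Nv.filter (fun u => ¬ H.Adj w u)).card : ℕ) : ℤ)
                = (W.card : ℤ) * (b + c + r)
                  - ((∑ w ∈ W, (Nv.filter (fun u => H.Adj w u)).card : ℕ) : ℤ) := by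
              have h2 : ∀ w ∈ W, (((Nv.filter (fun u => ¬ H.Adj w u)).card : ℕ) : ℤ)
                  = ((b + c + r : ℕ) : ℤ) - ((Nv.filter (fun u => H.Adj w u)).card : ℤ) := by
                intro w _
                have := Finset.card_filter_add_card_filter_not (s := Nv) (fun u => H.Adj w u)
                rw [hd] at this
                rw [← this]
                push_cast
                ring
              rw [Finset.sum_congr rfl h2, Finset.sum_sub_distrib, Finset.sum_const]
              push_cast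
              ring
            rw [h1]
            have h3 : ((∑ w ∈ W, (Nv.filter (fun u => H.Adj w u)).card : ℕ) : ℤ)
                ≤ ((Nv.card * (Nv.card - 1) : ℕ) : ℤ) := by exact_mod_cast hcount
            have h4 : ((Nv.card * (Nv.card - 1) : ℕ) : ℤ) = ((b:ℤ) + c + r) * (b + c + r - 1) := by
              rw [hd, Nat.cast_mul, Nat.cast_sub (by omega)]
              push_cast; ring
            linarith
          obtain ⟨A, hANv, hAcard, hAb⟩ := exists_A Nv W (fun w => Nv.filter (fun u => ¬ H.Adj w u))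
            (fun w _ => Finset.filter_subset _ _) b c r m2 hb1 hc1 hr1 hd hsum hm2a hm2b hMW
          obtain ⟨B, hBsub, hBcard⟩ := Finset.exists_subset_card_eq hAb
          obtain ⟨g, hg1, hg2, hg3⟩ := split s (Finset.univ.erase q) A (by rw [← hc, hAcard])
          have hBW : ∀ x ∈ B, x ∈ W ∧ ∀ u ∈ A, ¬ H.Adj x u := by
            intro x hx
            have h1 := Finset.mem_filter.mp (hBsub hx)
            refine ⟨h1.1, fun u hu => ?_⟩
            exact (Finset.mem_filter.mp (h1.2 hu)).2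
          have hWU : W ⊆ U := Finset.sdiff_subset.trans (Finset.erase_subset _ _)
          have hNvU : Nv ⊆ U := Finset.filter_subset _ _
          -- the extended class against pieces of A
          have hqA : ∀ x ∈ (Nv \ A) ∪ B, ∀ y ∈ A, x ≠ y ∧ ¬ H.Adj x y := by
            intro x hx y hy
            rcases Finset.mem_union.mp hx with hx | hx
            · rw [Finset.mem_sdiff] at hx
              exact ⟨fun h => hx.2 (h ▸ hy), hNvind x hx.1 y (hANv hy)⟩
            · obtain ⟨hxW, hxA⟩ := hBW x hx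
              refine ⟨fun h => ?_, hxA y hy⟩
              rw [hW, Finset.mem_sdiff] at hxW
              exact hxW.2 (h ▸ hANv hy)
          refine ⟨fun i => if i = q then (Nv \ A) ∪ B else g i, ?_, ?_, ?_⟩
          · intro i; dsimp only; split_ifs
            · exact Finset.union_subset (Finset.sdiff_subset.trans hNvU)
                (fun x hx => hWU (hBW x hx).1)
            · exact (hg1 i).trans (hANv.trans hNvU)
          · intro i; dsimp only; split_ifs with h
            · rw [Finset.card_union_of_disjoint, Finset.card_sdiff_of_subset hANv, hAcard, hBcard,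
                hd, h]
              · omega
              · refine Finset.disjoint_left.mpr fun x hx hx' => ?_
                have := (hBW x hx').1
                rw [hW, Finset.mem_sdiff] at this
                exact this.2 (Finset.mem_sdiff.mp hx).1
            · exact hg2 i (Finset.mem_erase.mpr ⟨h, Finset.mem_univ i⟩)
          · intro i j hij x hx y hy
            dsimp only at hx hy
            by_cases h : i = q
            · rw [if_pos h] at hx
              rw [if_neg (fun h' => hij (h.trans h'.symm))] at hy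
              exact hqA x hx y (hg1 j hy)
            · rw [if_neg h] at hx
              by_cases h' : j = q
              · rw [if_pos h'] at hy
                have := hqA y hy x (hg1 i hx)
                exact ⟨this.1.symm, fun hadj => this.2 hadj.symm⟩
              · rw [if_neg h'] at hy
                refine ⟨fun hxy => ?_, hNvind x (hANv (hg1 i hx)) y (hANv (hg1 j hy))⟩
                subst hxy
                exact Finset.disjoint_left.mp (hg3 i (Finset.mem_erase.mpr ⟨h, Finset.mem_univ i⟩)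
                  j (Finset.mem_erase.mpr ⟨h', Finset.mem_univ j⟩) hij) hx hy

/-- `R(3, G)`: the least `n` such that every graph `H` on `n` vertices contains a triangle or
has a complement containing a (not necessarily induced) copy of `G`. -/
noncomputable def ramseyThree {V : Type*} (G : SimpleGraph V) : ℕ :=
  sInf {n : ℕ | ∀ H : SimpleGraph (Fin n), ¬ H.CliqueFree 3 ∨ G.IsContained Hᶜ}

lemma main_of_classes {V ι : Type*} [Fintype V] [Fintype ι] [DecidableEq ι]
    (G : SimpleGraph V) [DecidableRel G.Adj] (π : V → ι) (hπ : ∀ x y, G.Adj x y ↔ π x ≠ π y)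
    (n : ℕ) (hn : Fintype.card V + G.edgeFinset.card ≤ n) (H : SimpleGraph (Fin n))
    (hH : H.CliqueFree 3) : G.IsContained Hᶜ := by
  classical
  set s : ι → ℕ := fun i => (Finset.univ.filter (fun x => π x = i)).card with hs
  have hsum : ∑ i, s i = Fintype.card V := by
    rw [hs, ← Finset.card_univ]
    exact (Finset.card_eq_sum_card_fiberwise (fun x _ => Finset.mem_coe.mpr (Finset.mem_univ (π x)))).symm
  have hdeg : ∀ x, G.degree x + s (π x) = Fintype.card V := by
    intro x
    rw [← G.card_neighborFinset_eq_degree, hs]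
    have h1 : G.neighborFinset x = Finset.univ.filter (fun y => ¬ π y = π x) := by
      ext y
      rw [SimpleGraph.mem_neighborFinset, hπ]
      simp [eq_comm]
    rw [h1, Nat.add_comm]
    exact Finset.card_filter_add_card_filter_not (fun y => π y = π x)
  have hssq : ∑ x, s (π x) = ∑ i, (s i) ^ 2 := by
    rw [← Finset.sum_fiberwise_of_maps_to (s := Finset.univ) (t := Finset.univ) (g := π)
      (fun x _ => Finset.mem_univ _)]
    apply Finset.sum_congr rfl
    intro i _
    rw [Finset.sum_congr rfl (g := fun _ => s i) (by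
      intro x hx
      rw [(Finset.mem_filter.mp hx).2]), Finset.sum_const, smul_eq_mul, sq]
  have hedge : 2 * G.edgeFinset.card + ∑ i, (s i) ^ 2 = (Fintype.card V) ^ 2 := by
    rw [← G.sum_degrees_eq_twice_card_edges, ← hssq, ← Finset.sum_add_distrib,
      Finset.sum_congr rfl (fun x _ => hdeg x), Finset.sum_const, smul_eq_mul, Finset.card_univ, sq]
  obtain ⟨f, -, hf2, hf3⟩ := core H hH (Fintype.card V) s (Finset.univ : Finset (Fin n)) hsum (by
    rw [Finset.card_univ, Fintype.card_fin]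
    omega)
  obtain ⟨e⟩ : Nonempty (∀ i, (Finset.univ.filter (fun x => π x = i) : Finset V)
      ≃ (f i : Finset (Fin n))) := ⟨fun i => Finset.equivOfCardEq (by rw [hf2])⟩
  have hmem : ∀ x, x ∈ (Finset.univ.filter (fun y => π y = π x) : Finset V) := by
    intro x; simp
  have hne : ∀ x y, π x ≠ π y → ((e (π x) ⟨x, hmem x⟩ : Fin n) ≠ (e (π y) ⟨y, hmem y⟩ : Fin n)
      ∧ ¬ H.Adj (e (π x) ⟨x, hmem x⟩ : Fin n) (e (π y) ⟨y, hmem y⟩ : Fin n)) := by
    intro x y hxy
    exact hf3 (π x) (π y) hxy _ (e (π x) ⟨x, hmem x⟩).2 _ (e (π y) ⟨y, hmem y⟩).2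
  refine ⟨⟨⟨fun x => (e (π x) ⟨x, hmem x⟩ : Fin n), ?_⟩, ?_⟩⟩
  · intro x y hxy
    rw [SimpleGraph.compl_adj]
    exact hne x y ((hπ x y).mp hxy)
  · intro x y hxy
    by_cases h : π x = π y
    · have key : ∀ i (hi : π x = i), ((e (π x) ⟨x, hmem x⟩ : Fin n))
          = (e i ⟨x, by simp [hi]⟩ : Fin n) := by
        rintro _ rfl; rfl
      have h1 : (e (π y) ⟨x, by simp [h]⟩ : Fin n) = (e (π y) ⟨y, hmem y⟩ : Fin n) := by
        rw [← key (π y) h]; exact hxy
      have h2 := (e (π y)).injective (Subtype.ext h1)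
      exact congrArg Subtype.val h2
    · exact absurd hxy (hne x y h).1

theorem result :
    (∀ (V : Type) [Fintype V] (G : SimpleGraph V) [DecidableRel G.Adj],
      G.IsCompleteMultipartite →
        (∀ n : ℕ, Fintype.card V + G.edgeFinset.card ≤ n →
          ∀ H : SimpleGraph (Fin n), ¬ H.CliqueFree 3 ∨ G.IsContained Hᶜ) ∧
        ramseyThree G ≤ Fintype.card V + G.edgeFinset.card) ∧
    (∀ k w : ℕ, 2 ≤ w → w ≤ k →
      ramseyThree (SimpleGraph.turanGraph k w)
        ≤ k + (SimpleGraph.turanGraph k w).edgeFinset.card) := by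
  have h : ∀ (V : Type) [Fintype V] (G : SimpleGraph V) [DecidableRel G.Adj],
      G.IsCompleteMultipartite →
        (∀ n : ℕ, Fintype.card V + G.edgeFinset.card ≤ n →
          ∀ H : SimpleGraph (Fin n), ¬ H.CliqueFree 3 ∨ G.IsContained Hᶜ) ∧
        ramseyThree G ≤ Fintype.card V + G.edgeFinset.card := by
    intro V _ G _ hG
    have h1 : ∀ n : ℕ, Fintype.card V + G.edgeFinset.card ≤ n →
          ∀ H : SimpleGraph (Fin n), ¬ H.CliqueFree 3 ∨ G.IsContained Hᶜ := by
      intro n hn H
      by_cases hH : H.CliqueFree 3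
      · right
        classical
        refine main_of_classes G (fun x => (Quotient.mk hG.setoid x)) ?_ n hn H hH
        intro x y
        have h2 : (Quotient.mk hG.setoid x = Quotient.mk hG.setoid y) ↔ ¬ G.Adj x y :=
          Quotient.eq
        rw [Ne, h2, not_not]
      · exact Or.inl hH
    exact ⟨h1, Nat.sInf_le (h1 _ le_rfl)⟩
  refine ⟨h, ?_⟩
  intro k w _ _
  have h3 := (h (Fin k) (SimpleGraph.turanGraph k w) ⟨by
    intro x y z hxy hyz
    simp only [SimpleGraph.turanGraph_adj, ne_eq, not_not] at hxy hyz ⊢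
    exact hxy.trans hyz⟩).2
  rwa [Fintype.card_fin] at h3

end Pool.Agent.Results.MP_1de1cd_co.CompleteMultipartite
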